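import Pool.Agent.helper97.AS.Spec

namespace Pool.Agent.helper97.AS

open Pool.Agent.helper20.LB (Step F IsSq Same Bd co)

theorem GOO_mono (f : ℤ → ℤ) (hf : Step f) (a : ℤ) (k : ℕ) :
    f a ≤ f (a + k) ∧ f (a + k) ≤ f a + k := by
  induction k with
  | zero => simp
  | succ k ih =>
    have h := hf (a + k)
    have e : a + ((k + 1 : ℕ) : ℤ) = a + k + 1 := by push_cast; ring
    rw [e]
    push_cast
    omega

theorem GOO (hLIN : LIN_stmt) (hCOU : COU_stmt) (hCO1 : CO1_stmt) : GOO_stmt := by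
  intro f p τ x M hp hM hgood
  obtain ⟨h1, h2⟩ := hLIN f p τ x M hp hM
  have hstep : Step f := hp.1
  have hT : 0 ≤ TT f x M ∧ TT f x M ≤ M + 2 := by
    have h := GOO_mono f hstep (x - 1) (M + 2).toNat
    have e : (((M + 2).toNat : ℕ) : ℤ) = M + 2 := by omega
    rw [e] at h
    have e2 : x - 1 + (M + 2) = x + M + 1 := by ring
    rw [e2] at h
    unfold TT
    omega
  have mono : ∀ (K K' : ℕ), K' ≤ K → Cnt f x (x + p + M) K → Cnt f x (x + p + M) K' := by
    rintro K K' hK ⟨A, a1, a2, a3⟩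
    exact ⟨A, a1, a2, hK.trans a3⟩
  rcases hgood with h | h | h
  · refine mono _ _ ?_ (hCO1 f x (x + p + M) (kk (TT f x M)) (kk (M + 2 - TT f x M)) hstep h1 h2
      (Or.inl h))
    unfold kk
    omega
  · refine mono _ _ ?_ (hCO1 f x (x + p + M) (kk (TT f x M)) (kk (M + 2 - TT f x M)) hstep h1 h2
      (Or.inr h))
    unfold kk
    omega
  · refine mono _ _ ?_ (hCOU f x (x + p + M) (kk (TT f x M)) (kk (M + 2 - TT f x M)) h1 h2)
    omega

end Pool.Agent.helper97.AS
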